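import Pool.Agent.H23.DM.TargetsQ
import Pool.Agent.H23.LC.Targets
import Pool.Agent.H23.LB.Targets

/-!
# Board dmq_modules, module QFI: the theorem for families of boxes and cosets
-/

set_option autoImplicit false

open NumberField NumberField.InfinitePlace NumberField.Units
  NumberField.Units.dirichletUnitTheorem MeasureTheory Set Filter Complex
open scoped nonZeroDivisors ENNReal

namespace Pool.Agent.H54.DMQ.QFI

open Pool.Agent.H25.HK Pool.Agent.H23.LB Pool.Agent.H23.LC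
open Pool.Agent.H31.SW (PP dK)
open Pool.Agent.H31.SX (LK)
open Pool.Agent.H29.DW (PrG IsCon)
open Pool.Agent.H23.DM
open Pool.Agent.H27.TM (InT Sp1)

section NF

variable {K : Type} [Field K] [NumberField K] {f : Ideal (𝓞 K)}

private lemma Nf_ge (hf : f ≠ ⊥) : 1 ≤ (Ideal.absNorm f : ℝ) := by
  have h : Ideal.absNorm f ≠ 0 := fun h => hf (Ideal.absNorm_eq_zero_iff.1 h)
  exact_mod_cast Nat.one_le_iff_ne_zero.2 h

private lemma one_le_PPT {T : InfinitePlace K → ℝ} (hT : ∀ v, 1 ≤ T v) : 1 ≤ PP T := by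
  unfold PP
  have h : ∏ v : InfinitePlace K, (1 : ℝ) ≤ ∏ v : InfinitePlace K, T v ^ v.mult :=
    Finset.prod_le_prod (fun _ _ => zero_le_one) fun v _ => one_le_pow₀ (hT v)
  simpa using h

end NF

/-- the numbers -/
private lemma num {C D N G e e' s : ℝ} {r R : ℕ} (hC : 0 ≤ C) (hD : 0 ≤ D) (hN : 1 ≤ N)
    (hG : 0 < G) (he : e ≤ e') (hs : 0 ≤ s) (hr : r ≤ R) :
    C * (D * N ^ e * ((r : ℝ) * G + (r : ℝ) ^ (1 / 2 : ℝ) * (N / G ^ 2)) ^ s) ≤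
      C * D * N ^ e' * ((R : ℝ) * G + (R : ℝ) ^ (1 / 2 : ℝ) * N / G ^ 2) ^ s := by
  have hN0 : 0 < N := by linarith
  have hrR : (r : ℝ) ≤ R := by exact_mod_cast hr
  have h1 : N ^ e ≤ N ^ e' := Real.rpow_le_rpow_of_exponent_le hN he
  have h2 : (r : ℝ) ^ (1 / 2 : ℝ) ≤ (R : ℝ) ^ (1 / 2 : ℝ) :=
    Real.rpow_le_rpow (Nat.cast_nonneg r) hrR (by norm_num)
  have hr0 : (0 : ℝ) ≤ r := Nat.cast_nonneg r
  have hr1 : 0 ≤ (r : ℝ) ^ (1 / 2 : ℝ) := Real.rpow_nonneg hr0 _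
  have h3 : (r : ℝ) * G + (r : ℝ) ^ (1 / 2 : ℝ) * (N / G ^ 2) ≤
      (R : ℝ) * G + (R : ℝ) ^ (1 / 2 : ℝ) * N / G ^ 2 := by
    rw [mul_div_assoc]
    have : 0 ≤ N / G ^ 2 := by positivity
    gcongr
  have h4 : ((r : ℝ) * G + (r : ℝ) ^ (1 / 2 : ℝ) * (N / G ^ 2)) ^ s ≤
      ((R : ℝ) * G + (R : ℝ) ^ (1 / 2 : ℝ) * N / G ^ 2) ^ s :=
    Real.rpow_le_rpow (by positivity) h3 hs
  have h5 : 0 ≤ ((r : ℝ) * G + (r : ℝ) ^ (1 / 2 : ℝ) * (N / G ^ 2)) ^ s :=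
    Real.rpow_nonneg (by positivity) _
  have h6 : 0 ≤ N ^ e' := Real.rpow_nonneg hN0.le _
  calc C * (D * N ^ e * ((r : ℝ) * G + (r : ℝ) ^ (1 / 2 : ℝ) * (N / G ^ 2)) ^ s) =
      C * D * (N ^ e * ((r : ℝ) * G + (r : ℝ) ^ (1 / 2 : ℝ) * (N / G ^ 2)) ^ s) := by ring
    _ ≤ C * D * (N ^ e' * ((R : ℝ) * G + (R : ℝ) ^ (1 / 2 : ℝ) * N / G ^ 2) ^ s) :=
        mul_le_mul_of_nonneg_left (mul_le_mul h1 h4 h5 h6) (mul_nonneg hC hD)
    _ = _ := by ring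

/-- (QFI) the theorem. -/
theorem pf_QFI (hQH : D_QH) (hFK : U_FK) (hSY : T_SY) : D_QFI := by
  intro m hm
  obtain ⟨B, hB, h⟩ := hQH m hm
  refine ⟨B, fun ε hε => ?_⟩
  set e₁ : ℝ := min ε 1 with he₁
  have he10 : 0 < e₁ := lt_min hε one_pos
  have he11 : e₁ ≤ 1 := min_le_right _ _
  have he1ε : e₁ ≤ ε := min_le_left _ _
  obtain ⟨C₁, hC₁, h1⟩ := h e₁ he10 he11
  refine ⟨C₁, ?_⟩
  intro K _ _ hK l k κ hlk hk3 hk6 hkr
  classical
  have hl : l ≠ ⊥ := hlk.l_ne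
  have hk : k ≠ ⊥ := hlk.k_ne
  have hf : l * k ≠ ⊥ := by
    rw [← Ideal.zero_eq_bot]
    exact mul_ne_zero hl hk
  have hκ : κ ≠ ⊥ := by
    intro h0
    apply hk
    rw [h0] at hk3
    have h3 : (⊥ : Ideal (𝓞 K)) ^ 3 = ⊥ := by
      rw [← Ideal.zero_eq_bot]
      exact zero_pow (by norm_num)
    rw [h3] at hk3
    exact le_bot_iff.1 hk3
  obtain ⟨Y⟩ := hSY K (l * k) hf
  choose L hL hLd using fun χ : HG K (l * k) => hFK K (l * k) hf Y χ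
  have hNk := Nf_ge hk
  have hNκ := Nf_ge hκ
  refine ⟨L, fun χ => ⟨(hL χ).1, (hL χ).2.1, hLd χ⟩, ?_⟩
  intro p T H R S bl hp2 hp12 hTH hSP hS1 hS2 hbl hcl
  have hT : ∀ v, 1 ≤ T v := fun v => (one_le_pow₀ (hTH v).1).trans (hTH v).2
  have h3 := h1 K hK l k κ hlk ⟨hk3, hk6, hkr⟩ Y L hL H T S bl p hTH hSP hS2 hS1 hcl hp2 hp12
  refine h3.trans ?_
  have hPT := one_le_PPT hT
  have hPH := one_le_PPT fun v => (hTH v).1
  have hcard : (S.image bl).card ≤ R := by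
    have h5 : S.image bl ⊆ Finset.range R := by
      intro x hx
      obtain ⟨q, hq, rfl⟩ := Finset.mem_image.1 hx
      exact Finset.mem_range.2 (hbl q hq)
    calc (S.image bl).card ≤ (Finset.range R).card := Finset.card_le_card h5
      _ = R := Finset.card_range R
  have hd0 : (0 : ℝ) ≤ |(discr K : ℝ)| := abs_nonneg _
  have h6 := num (C := C₁)
    (D := (|(discr K : ℝ)| * Ideal.absNorm l * Ideal.absNorm k.radical) ^ B)
    (N := (Ideal.absNorm k : ℝ) * PP T) (G := (Ideal.absNorm κ : ℝ) * PP H)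
    (e := (p - 2) / 5 + e₁) (e' := (p - 2) / 5 + ε) (s := (12 - p) / 10)
    hC₁ (by positivity) (one_le_mul_of_one_le_of_one_le hNk hPT)
    (by linarith [one_le_mul_of_one_le_of_one_le hNκ hPH]) (by linarith) (by linarith) hcard
  refine le_trans (le_of_eq ?_) h6
  rw [mul_assoc |(discr K : ℝ)|]
  rfl

end Pool.Agent.H54.DMQ.QFI
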